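import Mathlib
import Pool.Graph.R_seed8.H791R2.H5

set_option autoImplicit false

namespace Pool.Agent.Results.MP_ff6db8_an.NowhereEpsFrechet

open Filter Topology Pool.Agent.H791R2.Cp

section

variable (d : Dat) {X : Type*} [NormedAddCommGroup X] [NormedSpace ℝ X] (c : ℕ → X →L[ℝ] ℝ)

lemma not_eps_diff (ι : (ℕ →₀ ℝ) →ₗ[ℝ] X) (hι : ∀ x, ‖ι x‖ = nX (ee d) x)
    (hcι : ∀ l u, c l (ι u) = u l) (x : X) (D : X →L[ℝ] ℝ) {δ : ℝ} (hδ : 0 < δ) :
    ∃ y : X, dist y x < δ ∧ (1 / 100) * ‖y - x‖ < |FF d c y - FF d c x - D (y - x)| := by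
  classical
  by_contra hcon
  push Not at hcon
  have h2 : ∀ y : X, dist y x < δ → ‖FF d c y - FF d c x - D (y - x)‖ ≤ 1 / 100 * ‖y - x‖ :=
    fun y hy => hcon y hy
  obtain ⟨K, hK⟩ : ∃ K, ∀ k ≥ K, 4 * tt d k < δ := by
    have h3 : Tendsto (fun k => 4 * tt d k) atTop (𝓝 0) := by
      have := (tt_summable d).tendsto_atTop_zero.const_mul 4
      simpa using this
    exact eventually_atTop.1 (h3.eventually (gt_mem_nhds hδ))
  obtain ⟨k, hkK, hk⟩ := d.hb (bb d c x) (fun i => Real.abs_cos_le_one _) K
  have hδk := hK k hkK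
  have ht := tt_pos d k
  set θ := c k x / tt d k with hθ
  set e := ι (Finsupp.single k 1) with he
  have hce : ∀ i, c i e = if k = i then 1 else 0 := by
    intro i
    rw [he, hcι, Finsupp.single_apply]
  have hne : ‖e‖ ≤ 1 := by
    rw [he, hι]
    refine (nX_le_one _ _).trans ?_
    rw [one_single, abs_one]
  have hThk : Th d k (bb d c x) = 1 := Th_eq_one d hk
  -- values along the direction
  have key : ∀ σ : ℝ, |σ| ≤ 4 → |Real.sin (θ + σ) - Real.sin θ - σ * D e| ≤ 1 / 10 := by
    intro σ hσ
    set y := x + (σ * tt d k) • e with hy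
    have hcy : ∀ i, c i y = c i x + if k = i then σ * tt d k else 0 := by
      intro i
      rw [hy, map_add, map_smul, hce, smul_eq_mul]
      split_ifs <;> simp
    have hcy' : ∀ i < k, c i y = c i x := by
      intro i hi
      rw [hcy, if_neg (by omega), add_zero]
    have hbb : ∀ i < k, bb d c y i = bb d c x i := by
      intro i hi
      unfold bb
      rw [hcy' i hi]
    have hfl : ∀ l < k, fl d c l y = fl d c l x := by
      intro l hl
      unfold fl
      rw [hcy' l hl, Th_congr d (b := bb d c y) (b' := bb d c x) fun i hi => hbb i (hi.trans hl)]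
    have hflk : fl d c k y = tt d k * Real.sin (θ + σ) := by
      unfold fl
      rw [Th_congr d (b := bb d c y) (b' := bb d c x) fun i hi => hbb i hi, hThk, mul_one, hcy,
        if_pos rfl]
      congr 2
      rw [hθ]
      field_simp
    have hflk' : fl d c k x = tt d k * Real.sin θ := by
      unfold fl
      rw [hThk, mul_one]
    have t1 := tail_le d (fun l => fl_le d c l y) k
    have t2 := tail_le d (fun l => fl_le d c l x) k
    have t3 : ∑ l ∈ Finset.range (k + 1), fl d c l y = ∑ l ∈ Finset.range k, fl d c l x +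
        tt d k * Real.sin (θ + σ) := by
      rw [Finset.sum_range_succ, hflk]
      congr 1
      exact Finset.sum_congr rfl fun l hl => hfl l (Finset.mem_range.1 hl)
    rw [t3] at t1
    rw [Finset.sum_range_succ, hflk'] at t2
    have hyx : y - x = (σ * tt d k) • e := by rw [hy]; abel
    have hnyx : ‖y - x‖ ≤ 4 * tt d k := by
      rw [hyx, norm_smul, Real.norm_eq_abs, abs_mul, abs_of_pos ht]
      calc |σ| * tt d k * ‖e‖ ≤ 4 * tt d k * 1 := by
            refine mul_le_mul ?_ hne (norm_nonneg _) (by positivity)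
            exact mul_le_mul_of_nonneg_right hσ ht.le
        _ = _ := mul_one _
    have t4 := h2 y (by rw [dist_eq_norm]; exact hnyx.trans_lt hδk)
    rw [Real.norm_eq_abs, hyx, map_smul, smul_eq_mul, ← hyx] at t4
    have t5 : |FF d c y - FF d c x - σ * tt d k * D e| ≤ 1 / 100 * (4 * tt d k) :=
      t4.trans (mul_le_mul_of_nonneg_left hnyx (by norm_num))
    have t6 : tt d k * |Real.sin (θ + σ) - Real.sin θ - σ * D e| ≤ tt d k * (1 / 10) := by
      rw [← abs_of_pos ht, ← abs_mul, abs_of_pos ht]
      have a1 := abs_le.1 t1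
      have a2 := abs_le.1 t2
      have a3 := abs_le.1 t5
      unfold FF at a3
      rw [abs_le]
      constructor <;> linarith [a1.1, a1.2, a2.1, a2.2, a3.1, a3.2]
    exact le_of_mul_le_mul_left t6 ht
  have hπ1 := Real.pi_gt_three
  have hπ2 := Real.pi_le_four
  have k1 := key Real.pi (by rw [abs_of_pos Real.pi_pos]; exact hπ2)
  have k2 := key (-Real.pi) (by rw [abs_neg, abs_of_pos Real.pi_pos]; exact hπ2)
  have k3 := key (Real.pi / 2) (by rw [abs_of_pos (by positivity)]; linarith)
  rw [Real.sin_add_pi] at k1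
  rw [← sub_eq_add_neg, Real.sin_sub_pi] at k2
  rw [Real.sin_add_pi_div_two] at k3
  have a1 := abs_le.1 k1
  have a2 := abs_le.1 k2
  have a3 := abs_le.1 k3
  have b1 : |Real.sin θ| ≤ 1 / 20 := by
    rw [abs_le]
    constructor <;> linarith [a1.1, a1.2, a2.1, a2.2]
  have b2 : |Real.pi * D e| ≤ 1 / 10 := by
    rw [abs_le]
    constructor <;> linarith [a1.1, a1.2, a2.1, a2.2]
  have a4 := abs_le.1 b1
  have a5 := abs_le.1 b2
  have b3 : |Real.cos θ| ≤ 1 / 5 := by
    rw [abs_le]
    constructor <;> linarith [a3.1, a3.2, a4.1, a4.2, a5.1, a5.2]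
  have a6 := abs_le.1 b3
  have hsc := Real.sin_sq_add_cos_sq θ
  have b4 : Real.sin θ ^ 2 ≤ (1 / 20) ^ 2 := sq_le_sq' a4.1 a4.2
  have b5 : Real.cos θ ^ 2 ≤ (1 / 5) ^ 2 := sq_le_sq' a6.1 a6.2
  norm_num at b4 b5
  linarith


/-- The Gateaux derivatives of the partial sums depend continuously on the point. -/
lemma cont_Dl (hφ' : Continuous d.φ') (l : ℕ) (v : X) : Continuous fun y => Dl d c l y v := by
  have hφ : Continuous d.φ := by
    rw [continuous_iff_continuousAt]
    exact fun t => (d.hd t).continuousAt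
  have hb : ∀ i, Continuous fun y : X => bb d c y i := by
    intro i
    unfold bb
    exact Real.continuous_cos.comp ((c i).continuous.div_const _)
  have hTh : Continuous fun y : X => Th d l (bb d c y) := by
    unfold Th
    refine continuous_finset_prod _ fun i _ => hφ.comp ?_
    exact continuous_const.mul ((hb i).sub continuous_const)
  have h1 : Continuous fun y : X => ee d l (bC d c y) * c l v := by
    have : Continuous fun y : X => bb d c y l * Th d l (bb d c y) * c l v :=
      ((hb l).mul hTh).mul continuous_const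
    exact this
  have hww : ∀ i, Continuous fun y : X => ww d c l i y := by
    intro i
    unfold ww
    refine (continuous_finset_prod _ fun j _ => hφ.comp ?_).mul ((hφ'.comp ?_).mul ?_)
    · exact continuous_const.mul ((hb j).sub continuous_const)
    · exact continuous_const.mul ((hb i).sub continuous_const)
    · refine continuous_const.mul (Continuous.div_const ?_ _)
      exact (Real.continuous_sin.comp ((c i).continuous.div_const _)).neg
  have h2 : Continuous fun y : X => ∑ i ∈ Finset.range (d.r l),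
      (tt d l * Real.sin (c l y / tt d l) * ww d c l i y) * c i v := by
    refine continuous_finset_sum _ fun i _ => Continuous.mul ?_ continuous_const
    refine Continuous.mul (continuous_const.mul ?_) (hww i)
    exact Real.continuous_sin.comp ((c l).continuous.div_const _)
  have h3 : (fun y => Dl d c l y v) = fun y => ee d l (bC d c y) * c l v +
      ∑ i ∈ Finset.range (d.r l), (tt d l * Real.sin (c l y / tt d l) * ww d c l i y) * c i v := by
    ext y
    unfold Dl El
    simp [ContinuousLinearMap.sum_apply]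
  rw [h3]
  exact h1.add h2

end

/-- data with a continuously differentiable bump -/
lemma exists_dat' : ∃ d : Dat, Continuous d.φ' := by
  obtain ⟨d⟩ := exists_dat
  let f : ContDiffBump (0 : ℝ) := ⟨1 / 2, 1, by norm_num, by norm_num⟩
  have hf : ContDiff ℝ 1 f := f.contDiff
  have hc : Continuous (deriv f) := hf.continuous_deriv le_rfl
  have hcs : HasCompactSupport (deriv f) := f.hasCompactSupport.deriv
  obtain ⟨A, hA⟩ := hcs.exists_bound_of_continuous hc
  refine ⟨{ d with
    φ := f
    φ' := deriv f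
    A := A
    hA := (norm_nonneg _).trans (hA 0)
    hd := fun t => (hf.differentiable one_ne_zero t).hasDerivAt
    hA' := hA
    h0 := fun t => f.nonneg
    h1 := fun t => f.le_one
    hone := fun t ht => f.one_of_mem_closedBall (by simpa [f, Real.dist_eq] using ht)
    hzero := fun t ht => f.zero_of_le_dist (by simpa [f, Real.dist_eq] using ht) }, hc⟩

/-- **A uniform and continuously Gateaux differentiable counterexample.** There is a separable real
Banach space `X` whose dual has the C*PCP and a function `f : X → ℝ` with Lipschitz constant `2`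
which is Gateaux differentiable at every point, with derivative `G : X → X*` bounded by `2` and
continuous from the norm to the weak* topology (`y ↦ G y v` is continuous for every `v`), such that
at NO point `x` is `f` even `1/100`-Fréchet differentiable: for every `x`, every continuous linear
`L` and every `δ > 0` there is `y` with `‖y - x‖ < δ` and
`|f y - f x - L (y - x)| > ‖y - x‖ / 100`. In particular `f` is nowhere Fréchet differentiable. -/
theorem result : ∃ (X : Type) (_ : NormedAddCommGroup X) (_ : NormedSpace ℝ X)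
    (_ : CompleteSpace X) (_ : TopologicalSpace.SeparableSpace X),
    (∀ C : Set (X →L[ℝ] ℝ), C.Nonempty → Convex ℝ C →
      @IsCompact (X →L[ℝ] ℝ)
        (TopologicalSpace.induced (fun (φ : X →L[ℝ] ℝ) (x : X) => φ x) inferInstance) C →
      ∃ φ ∈ C, ∀ ε : ℝ, 0 < ε → ∃ U : Set (X →L[ℝ] ℝ),
        @IsOpen (X →L[ℝ] ℝ)
          (TopologicalSpace.induced (fun (φ : X →L[ℝ] ℝ) (x : X) => φ x) inferInstance) U ∧
        φ ∈ U ∧ ∀ ψ ∈ U ∩ C, ‖ψ - φ‖ < ε) ∧
    ∃ (f : X → ℝ) (G : X → X →L[ℝ] ℝ), LipschitzWith 2 f ∧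
      (∀ x v : X, HasLineDerivAt ℝ f (G x v) x v) ∧ (∀ x, ‖G x‖ ≤ 2) ∧
      (∀ v : X, Continuous fun x => G x v) ∧
      (∀ (x : X) (L : X →L[ℝ] ℝ) (δ : ℝ), 0 < δ →
        ∃ y : X, ‖y - x‖ < δ ∧ ‖y - x‖ / 100 < |f y - f x - L (y - x)|) ∧
      ∀ x : X, ¬ DifferentiableAt ℝ f x := by
  obtain ⟨d, hφ'⟩ := exists_dat'
  obtain ⟨X, i1, i2, i3, ι, hι, hd⟩ := exists_space (nX (ee d))
  have hN : ∀ x, nX (ee d) x = 0 → x = 0 := by
    intro x hx
    ext l
    have := coord_le d l x
    rw [hx, mul_zero] at this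
    exact abs_nonpos_iff.1 this
  have hc : ∀ l : ℕ, ∃ G : X →L[ℝ] ℝ, (∀ x, G (ι x) = x l) ∧ ‖G‖ ≤ 2 := by
    intro l
    exact exists_ext (nX (ee d)) hN ι hι (Finsupp.lapply l) (by norm_num) (coord_le d l)
  choose c hcι hc2 using hc
  obtain ⟨G, hG2, hG⟩ := exists_deriv d c ι hι hd hcι hc2
  refine ⟨X, i1, i2, i3, sep_of_dense ι hd, fun C h1 h2 h3 =>
    cstar_pcp (ee_le_one d) (ee_osc d) X ι hι hd C h1 h2 h3, FF d c, G, lip_FF d c hG2 hG,
    fun x v => ?_, hG2, fun v => ?_, fun x L δ hδ => ?_, not_diff d c ι hι hcι⟩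
  · have := hasDerivAt_FF d c hG x v 0
    simp only [zero_smul, add_zero] at this
    exact this
  · refine (hG v).continuous (Filter.Frequently.of_forall fun n => ?_)
    exact continuous_finset_sum _ fun l _ => cont_Dl d c hφ' l v
  · obtain ⟨y, h1, h2⟩ := not_eps_diff d c ι hι hcι x L hδ
    refine ⟨y, by rwa [← dist_eq_norm], ?_⟩
    calc ‖y - x‖ / 100 = (1 / 100) * ‖y - x‖ := by ring
      _ < _ := h2

end Pool.Agent.Results.MP_ff6db8_an.NowhereEpsFrechet
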